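import Pool.Agent.Lib.MP_61ca19_lc.SizeMain

set_option autoImplicit false

namespace Pool.Agent.Results.MP_61ca19_lc.AllSizes

/-- For every `n` and every `N ≥ 2 ^ (13000 (n + 1) ^ 6)` there is a triangle-free graph on
exactly `N` vertices with the `n`-extension property. -/
theorem result :
    ∀ n N : ℕ, 2 ^ (13000 * (n + 1) ^ 6) ≤ N → ∃ G : SimpleGraph (Fin N),
      G.CliqueFree 3 ∧
      ∀ X Y : Finset (Fin N),
        G.IsIndepSet (X : Set (Fin N)) →
        Disjoint X Y →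
        X.card + Y.card ≤ n →
        ∃ z : Fin N, z ∉ X ∧ z ∉ Y ∧
          (∀ x ∈ X, G.Adj z x) ∧ (∀ y ∈ Y, ¬ G.Adj z y) :=
  Pool.Agent.Lib.MP_61ca19_lc.KS.all_sizes

end Pool.Agent.Results.MP_61ca19_lc.AllSizes
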