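import Mathlib
import Pool.Agent.Lib.MP_61ca19_lc.Lit

set_option autoImplicit false

namespace Pool.Agent.Results.MP_61ca19_lc.FiniteModel

open Pool.Agent.Lib.MP_61ca19_lc.Lit

/-- The generic triangle-free graph exists, and every first-order sentence true in it is true in
some nonempty finite triangle-free graph. -/
theorem result : (∃ H : SimpleGraph ℕ, Generic H) ∧
    ∀ (V : Type) (H : SimpleGraph V), Generic H →
      ∀ φ : FirstOrder.Language.graph.Sentence, Models H φ →
        ∃ (N : ℕ) (G : SimpleGraph (Fin N)), 0 < N ∧ G.CliqueFree 3 ∧ Models G φ :=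
  ⟨exists_generic, fun _ _ h φ hφ => h.fmp φ hφ⟩

end Pool.Agent.Results.MP_61ca19_lc.FiniteModel
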